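import Pool.Agent.Q120.FZ.Stm

/-!
# Project FZ (helper120), job EUL
-/

set_option autoImplicit false

namespace Pool.Agent.Q208.FZ

open Finset MeasureTheory Filter Pool.Agent.Q120.ET Pool.Agent.Q120.GM Pool.Agent.Q120.TT Pool.Agent.Q120.FZ
open scoped Topology

theorem sg_abs (S : Set ℕ) (n : ℕ) : |sg S n| = 1 := by
  unfold sg
  split_ifs <;> simp

theorem lam_abs (S : Set ℕ) (n : ℕ) : |lam S n| ≤ 1 := by
  unfold lam
  split_ifs
  · simp
  · have h : ∀ l : List ℕ, |(l.map (sg S)).prod| = 1 := by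
      intro l
      induction l with
      | nil => simp
      | cons a l ih => rw [List.map_cons, List.prod_cons, abs_mul, ih, sg_abs, mul_one]
    rw [h]

theorem lam_mul (S : Set ℕ) (m n : ℕ) : lam S (m * n) = lam S m * lam S n := by
  unfold lam
  by_cases hm : m = 0
  · subst hm
    simp
  by_cases hn : n = 0
  · subst hn
    simp
  rw [if_neg hm, if_neg hn, if_neg (mul_ne_zero hm hn), ← List.prod_append, ← List.map_append]
  exact ((Nat.perm_primeFactorsList_mul hm hn).map (sg S)).prod_eq

theorem lam_prime (S : Set ℕ) {p : ℕ} (hp : p.Prime) : lam S p = sg S p := by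
  unfold lam
  rw [if_neg hp.ne_zero, Nat.primeFactorsList_prime hp]
  simp

/-- the coefficients with the power of `n`, a homomorphism -/
noncomputable def fh (S : Set ℕ) (s : ℂ) : ℕ →*₀ ℂ where
  toFun n := (lam S n : ℂ) * (n : ℂ) ^ (-s)
  map_zero' := by simp [lam]
  map_one' := by simp [lam]
  map_mul' m n := by
    rw [lam_mul, Nat.cast_mul, Complex.natCast_mul_natCast_cpow]
    push_cast
    ring

theorem t_EUL : J_EUL := by
  intro S
  refine ⟨lam_abs S, fun s hs => ?_⟩
  have hsum : Summable fun n => ‖fh S s n‖ := by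
    refine Summable.of_nonneg_of_le (fun n => norm_nonneg _) (f := fun n : ℕ => (n : ℝ) ^ (-s.re))
      (fun n => ?_) (Real.summable_nat_rpow.2 (by linarith))
    show ‖(lam S n : ℂ) * (n : ℂ) ^ (-s)‖ ≤ _
    rw [norm_mul, Complex.norm_real, Real.norm_eq_abs]
    rcases Nat.eq_zero_or_pos n with h | h
    · subst h
      have : |lam S 0| = 0 := by simp [lam]
      rw [this, zero_mul]
      exact Real.rpow_nonneg (Nat.cast_nonneg _) _
    · rw [Complex.norm_natCast_cpow_of_pos h, Complex.neg_re]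
      exact mul_le_of_le_one_left (Real.rpow_nonneg (Nat.cast_nonneg _) _) (lam_abs S n)
  have h1 := EulerProduct.exp_tsum_primes_log_eq_tsum hsum
  have h2 : ∀ p : Nat.Primes, fh S s p = (sg S p : ℂ) * ((p : ℕ) : ℂ) ^ (-s) := by
    intro p
    show (lam S p : ℂ) * ((p : ℕ) : ℂ) ^ (-s) = _
    rw [lam_prime S p.2]
  simp only [h2] at h1
  rw [h1]
  unfold LSeries
  refine tsum_congr fun n => ?_
  show LSeries.term (fun n => (lam S n : ℂ)) s n = (lam S n : ℂ) * (n : ℂ) ^ (-s)
  rcases Nat.eq_zero_or_pos n with h | h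
  · subst h
    simp [lam]
  · rw [LSeries.term_of_ne_zero (by omega), Complex.cpow_neg]
    rfl

end Pool.Agent.Q208.FZ
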