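import Pool.Agent.Q120.FZ.Stm

/-!
# Project FZ (helper120), job LGP
-/

set_option autoImplicit false

namespace Pool.Agent.Q208.FZ

open Finset MeasureTheory Filter Pool.Agent.Q120.ET Pool.Agent.Q120.GM Pool.Agent.Q120.TT Pool.Agent.Q120.FZ
open scoped Topology

/-- the terms -/
noncomputable def hterm (S : Set ℕ) (p : Nat.Primes) (s : ℂ) : ℂ :=
  -Complex.log (1 - (sg S p : ℂ) * ((p : ℕ) : ℂ) ^ (-s)) - (sg S p : ℂ) * ((p : ℕ) : ℂ) ^ (-s)

theorem sg_norm (S : Set ℕ) (n : ℕ) : ‖(sg S n : ℂ)‖ = 1 := by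
  unfold sg
  split_ifs <;> simp

theorem pp_norm (S : Set ℕ) {n : ℕ} (hn : 0 < n) (s : ℂ) :
    ‖(sg S n : ℂ) * (n : ℂ) ^ (-s)‖ = (n : ℝ) ^ (-s.re) := by
  rw [norm_mul, sg_norm, one_mul, Complex.norm_natCast_cpow_of_pos hn, Complex.neg_re]

theorem pp_norm_sq (S : Set ℕ) {n : ℕ} (hn : 0 < n) (s : ℂ) :
    ‖(sg S n : ℂ) * (n : ℂ) ^ (-s)‖ ^ 2 = (n : ℝ) ^ (-2 * s.re) := by
  rw [pp_norm S hn, ← Real.rpow_natCast, ← Real.rpow_mul (Nat.cast_nonneg _)]
  congr 1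
  push_cast
  ring

theorem pp_norm_le (S : Set ℕ) {n : ℕ} (hn : 2 ≤ n) {s : ℂ} (hs : 1 / 2 < s.re) :
    ‖(sg S n : ℂ) * (n : ℂ) ^ (-s)‖ ≤ 3 / 4 := by
  have hn2 : (2 : ℝ) ≤ n := by exact_mod_cast hn
  have h1 : ‖(sg S n : ℂ) * (n : ℂ) ^ (-s)‖ ^ 2 ≤ 1 / 2 := by
    rw [pp_norm_sq S (by omega)]
    calc (n : ℝ) ^ (-2 * s.re) ≤ (n : ℝ) ^ (-1 : ℝ) :=
          Real.rpow_le_rpow_of_exponent_le (by linarith) (by linarith)
      _ = (n : ℝ)⁻¹ := Real.rpow_neg_one _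
      _ ≤ 1 / 2 := by
        rw [one_div]
        exact inv_anti₀ (by norm_num) hn2
  by_contra h2
  push Not at h2
  nlinarith [norm_nonneg ((sg S n : ℂ) * (n : ℂ) ^ (-s))]

theorem hterm_bound (S : Set ℕ) (p : Nat.Primes) {s : ℂ} {σ : ℝ} (hσ : 1 / 2 < σ) (hs : σ ≤ s.re) :
    ‖hterm S p s‖ ≤ 2 * ((p : ℕ) : ℝ) ^ (-2 * σ) := by
  unfold hterm
  have hn : 2 ≤ (p : ℕ) := p.2.two_le
  have hn1 : (1 : ℝ) ≤ ((p : ℕ) : ℝ) := by exact_mod_cast (by omega : 1 ≤ (p : ℕ))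
  have h1 := pp_norm_le S hn (s := s) (by linarith)
  have h5' := pp_norm_sq S (n := p) (by omega) s
  generalize (sg S p : ℂ) * ((p : ℕ) : ℂ) ^ (-s) = z at *
  have h2 : ‖-z‖ < 1 := by rw [norm_neg]; linarith
  have h3 := Complex.norm_log_one_add_sub_self_le h2
  rw [norm_neg] at h3
  have e1 : -Complex.log (1 - z) - z = -(Complex.log (1 + -z) - -z) := by
    rw [← sub_eq_add_neg]
    ring
  rw [e1, norm_neg]
  have h4 : (1 - ‖z‖)⁻¹ ≤ 4 := by
    rw [inv_le_comm₀ (by linarith) (by norm_num)]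
    linarith
  have h5 : ‖z‖ ^ 2 ≤ ((p : ℕ) : ℝ) ^ (-2 * σ) := by
    rw [h5']
    exact Real.rpow_le_rpow_of_exponent_le hn1 (by linarith)
  have h6 : ‖z‖ ^ 2 * (1 - ‖z‖)⁻¹ ≤ ‖z‖ ^ 2 * 4 :=
    mul_le_mul_of_nonneg_left h4 (sq_nonneg _)
  linarith

theorem hterm_diff (S : Set ℕ) (p : Nat.Primes) :
    DifferentiableOn ℂ (hterm S p) {s | 1 / 2 < s.re} := by
  intro s hs
  apply DifferentiableAt.differentiableWithinAt
  unfold hterm
  have hn0 : ((p : ℕ) : ℂ) ≠ 0 := by exact_mod_cast p.2.ne_zero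
  have h1 : DifferentiableAt ℂ (fun s : ℂ => (sg S p : ℂ) * ((p : ℕ) : ℂ) ^ (-s)) s :=
    (differentiableAt_id.neg.const_cpow (Or.inl hn0)).const_mul _
  have h2 : (1 - (sg S p : ℂ) * ((p : ℕ) : ℂ) ^ (-s)) ∈ Complex.slitPlane := by
    left
    have h3 := pp_norm_le S p.2.two_le (s := s) hs
    have h4 := Complex.abs_re_le_norm ((sg S p : ℂ) * ((p : ℕ) : ℂ) ^ (-s))
    have h5 := (abs_le.1 h4).2
    rw [Complex.sub_re, Complex.one_re]
    linarith
  exact ((((differentiableAt_const _).sub h1).clog h2).neg).sub h1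

theorem summable_bound {σ : ℝ} (hσ : 1 / 2 < σ) :
    Summable fun p : Nat.Primes => 2 * ((p : ℕ) : ℝ) ^ (-2 * σ) :=
  ((Real.summable_nat_rpow.2 (by linarith)).mul_left 2).comp_injective
    Nat.Primes.coe_nat_injective

theorem t_LGP : J_LGP := by
  intro S
  refine ⟨fun s => ∑' p, hterm S p s, ?_, ?_, ?_⟩
  · intro s hs
    have hs' : 1 / 2 < s.re := hs
    obtain ⟨σ, h1, h2⟩ := exists_between hs'
    have hopen : IsOpen {s : ℂ | σ < s.re} := isOpen_lt continuous_const Complex.continuous_re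
    have h3 : DifferentiableOn ℂ (fun s => ∑' p, hterm S p s) {s | σ < s.re} := by
      refine Complex.differentiableOn_tsum_of_summable_norm (summable_bound h1)
        (fun p => (hterm_diff S p).mono fun w hw => ?_) hopen fun p w hw => ?_
      · have hw' : σ < w.re := hw
        show 1 / 2 < w.re
        linarith
      · exact hterm_bound S p h1 (le_of_lt hw)
    exact (h3.differentiableAt (hopen.mem_nhds h2)).differentiableWithinAt
  · intro σ hσ
    refine ⟨∑' p : Nat.Primes, 2 * ((p : ℕ) : ℝ) ^ (-2 * σ), fun s hs => ?_⟩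
    exact tsum_of_norm_bounded (summable_bound hσ).hasSum fun p => hterm_bound S p hσ hs
  · intro s hs
    have hsum1 : Summable fun p : Nat.Primes => (sg S p : ℂ) * ((p : ℕ) : ℂ) ^ (-s) := by
      refine Summable.of_norm_bounded (g := fun p : Nat.Primes => ((p : ℕ) : ℝ) ^ (-s.re))
        ((Real.summable_nat_rpow.2 (by linarith)).comp_injective Nat.Primes.coe_nat_injective)
        fun p => ?_
      rw [pp_norm S p.2.pos]
    have hsum2 : Summable fun p => hterm S p s := by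
      refine Summable.of_norm_bounded (summable_bound (σ := 3 / 4) (by norm_num)) fun p => ?_
      exact hterm_bound S p (by norm_num) (by linarith)
    rw [← hsum1.tsum_add hsum2]
    refine tsum_congr fun p => ?_
    unfold hterm
    ring

end Pool.Agent.Q208.FZ
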