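import Pool.Agent.Q208.FZ.SUP

/-!
# Project FZ (helper120), job ASF
-/

set_option autoImplicit false

namespace Pool.Agent.Q208.FZ

open Finset MeasureTheory Filter Pool.Agent.Q120.ET Pool.Agent.Q120.GM Pool.Agent.Q120.TT Pool.Agent.Q120.FZ
open scoped Topology

theorem W_norm_le (S : Set ℕ) (k x : ℕ) (t : ℝ) : ‖W S k x t‖ ≤ 2 ^ k := by
  unfold W
  refine (norm_sum_le _ _).trans ?_
  have h1 : ∀ p ∈ (pb k).filter (fun p => p ≤ x), ‖(sg S p : ℂ) * (p : ℂ) ^ (-((t : ℂ) * Complex.I))‖ ≤ 1 := by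
    intro p hp
    have h2 : p.Prime := (Finset.mem_filter.1 (Finset.mem_filter.1 hp).1).2
    have hs : ‖(sg S p : ℂ)‖ = 1 := by
      unfold sg
      split_ifs <;> simp
    rw [norm_mul, hs, one_mul, pow_norm_one h2.pos]
  refine (Finset.sum_le_sum h1).trans ?_
  rw [Finset.sum_const, nsmul_eq_mul, mul_one]
  refine le_trans ?_ (pb_card k)
  exact_mod_cast Finset.card_filter_le _ _

theorem W_big (S : Set ℕ) {k x : ℕ} (hx : ¬ x < 2 ^ (k + 1)) (t : ℝ) : W S k x t = W S k (2 ^ (k + 1) - 1) t := by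
  unfold W
  have e : (pb k).filter (fun p => p ≤ x) = (pb k).filter (fun p => p ≤ 2 ^ (k + 1) - 1) := by
    ext p
    simp only [mem_filter]
    constructor
    · rintro ⟨h1, h2⟩
      refine ⟨h1, ?_⟩
      have := (pb_mem h1).2.1
      omega
    · rintro ⟨h1, h2⟩
      exact ⟨h1, by omega⟩
  rw [e]

theorem W_tr {Ω : Type} [MeasurableSpace Ω] (A : Ω → Set ℕ) (ω : Ω) (k x : ℕ) (t : ℝ) :
    W ((tr A (pb k) ω : Finset ℕ) : Set ℕ) k x t = W (A ω) k x t := by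
  unfold W
  refine Finset.sum_congr rfl fun p hp => ?_
  have h1 : p ∈ pb k := (Finset.mem_filter.1 hp).1
  have h2 : sg ((tr A (pb k) ω : Finset ℕ) : Set ℕ) p = sg (A ω) p := by
    unfold sg
    have h3 : p ∈ ((tr A (pb k) ω : Finset ℕ) : Set ℕ) ↔ p ∈ A ω := by
      rw [Finset.mem_coe, mem_tr]
      exact ⟨fun h => h.2, fun h => ⟨h1, h⟩⟩
    by_cases h4 : p ∈ A ω
    · rw [if_pos h4, if_pos (h3.2 h4)]
    · rw [if_neg h4, if_neg (fun h => h4 (h3.1 h))]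
  rw [h2]

/-- The bound of one block. -/
noncomputable def lb (δ ε : ℝ) (k j : ℕ) : ℝ :=
  √(8 * 2 ^ k * ((2 : ℝ) ^ ((δ + 2 * ε) * k) + 2 ^ j + 5 * k + 10))

theorem lb_sq (δ ε : ℝ) (k j : ℕ) :
    lb δ ε k j ^ 2 = 8 * 2 ^ k * ((2 : ℝ) ^ ((δ + 2 * ε) * k) + 2 ^ j + 5 * k + 10) := by
  unfold lb
  rw [Real.sq_sqrt (by positivity)]

theorem lb_pos (δ ε : ℝ) (k j : ℕ) : 0 < lb δ ε k j := by
  unfold lb
  apply Real.sqrt_pos.2
  positivity

theorem isLaw_half {Ω : Type} [MeasurableSpace Ω] {μ : Measure Ω} [IsProbabilityMeasure μ] {A : Ω → Set ℕ}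
    (hA : IsRandomSet A) (B : Finset ℕ) : IsLaw half B (lawOn μ A B) where
  nonneg := fun T _ => measureReal_nonneg
  total := sum_law hA B
  cont := fun T _ h => absurd h (ne_of_gt (by
    unfold prodOn half
    exact mul_pos (Finset.prod_pos fun _ _ => by norm_num) (Finset.prod_pos fun _ _ => by norm_num)))

open Classical in
theorem event_eq {Ω : Type} [MeasurableSpace Ω] {μ : Measure Ω}
    [IsProbabilityMeasure μ] {A : Ω → Set ℕ} (hA : IsRandomSet A) (k : ℕ) (G : Set ℕ → Prop)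
    (hG : ∀ ω, G ((tr A (pb k) ω : Finset ℕ) : Set ℕ) ↔ G (A ω)) :
    μ.real {ω | G (A ω)} = ∑ T ∈ (pb k).powerset with G ((T : Finset ℕ) : Set ℕ), lawOn μ A (pb k) T := by
  rw [← real_event hA (pb k) (fun T : Finset ℕ => G (T : Set ℕ))]
  congr 1
  ext ω
  exact (hG ω).symm

theorem event_le (hE : J_ENTG) (hH : J_HOEF) (hS : J_SUP) {Ω : Type} [MeasurableSpace Ω] {μ : Measure Ω}
    [IsProbabilityMeasure μ] {A : Ω → Set ℕ} (hA : IsRandomSet A) (δ ε : ℝ) (k j : ℕ) :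
    μ.real {ω | ∃ (x : ℕ) (t : ℝ), x < 2 ^ (k + 1) ∧ |t| ≤ Real.exp (2 ^ j) ∧
      lb δ ε k j + 1 ≤ ‖W (A ω) k x t‖} ≤
      (1 + relEnt half μ A (pb k)) / ((2 : ℝ) ^ ((δ + 2 * ε) * k) + 2 ^ j + 5 * k + 10) := by
  classical
  set u : ℝ := (2 : ℝ) ^ ((δ + 2 * ε) * k) + 2 ^ j + 5 * k + 10 with hu
  have hu0 : 0 < u := by rw [hu]; positivity
  rw [event_eq hA k (fun S : Set ℕ => ∃ (x : ℕ) (t : ℝ), x < 2 ^ (k + 1) ∧ |t| ≤ Real.exp (2 ^ j) ∧
      lb δ ε k j + 1 ≤ ‖W S k x t‖) (fun ω => by simp only [W_tr])]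
  have h1 := hS hH k (2 ^ j) (lb δ ε k j) (by positivity) (lb_pos δ ε k j) (by
    rw [lb_sq]
    refine mul_le_mul_of_nonneg_left ?_ (by positivity)
    have : (0 : ℝ) < (2 : ℝ) ^ ((δ + 2 * ε) * k) := by positivity
    linarith)
  have h2 : lb δ ε k j ^ 2 / (8 * 2 ^ k) = u := by
    rw [lb_sq, ← hu]
    exact mul_div_cancel_left₀ u (by positivity)
  rw [h2] at h1
  have h3 := hE half (pb k) (fun n _ => by unfold half; norm_num) (lawOn μ A (pb k)) (isLaw_half hA (pb k))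
    (fun T : Finset ℕ => ∃ (x : ℕ) (t : ℝ), x < 2 ^ (k + 1) ∧
        |t| ≤ Real.exp (2 ^ j) ∧ lb δ ε k j + 1 ≤ ‖W (T : Set ℕ) k x t‖) u hu0 (by convert h1)
  unfold relEnt
  convert h3

theorem summ_aux {ε : ℝ} (hε : 0 < ε) : Summable (fun k : ℕ => ((k : ℝ) + 1) * (2 * (2 : ℝ) ^ (-(ε * k)))) := by
  have hr0 : (0 : ℝ) < (2 : ℝ) ^ (-ε) := by positivity
  have hr : (2 : ℝ) ^ (-ε) < 1 := Real.rpow_lt_one_of_one_lt_of_neg (by norm_num) (by linarith)
  have h1 := summable_pow_mul_geometric_of_norm_lt_one (R := ℝ) 1 (r := (2 : ℝ) ^ (-ε)) (by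
    rw [Real.norm_of_nonneg hr0.le]; exact hr)
  have h2 := summable_geometric_of_lt_one hr0.le hr
  have h3 := ((h1.add h2).mul_left 2)
  refine h3.congr fun k => ?_
  have e : (2 : ℝ) ^ (-(ε * k)) = ((2 : ℝ) ^ (-ε)) ^ k := by
    rw [← Real.rpow_natCast, ← Real.rpow_mul (by norm_num)]
    congr 1; ring
  rw [e]
  ring

theorem ae_block (hE : J_ENTG) (hH : J_HOEF) (hS : J_SUP) {Ω : Type} [MeasurableSpace Ω] {μ : Measure Ω}
    [IsProbabilityMeasure μ] {A : Ω → Set ℕ} (hA : IsRandomSet A) {δ : ℝ} (hI : InfoF μ A δ)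
    {ε : ℝ} (hε : 0 < ε) (hδ : 0 ≤ δ) :
    ∀ᵐ ω ∂μ, ∀ᶠ k : ℕ in atTop, ∀ j ≤ k, ∀ x : ℕ, x < 2 ^ (k + 1) → ∀ t : ℝ, |t| ≤ Real.exp (2 ^ j) →
      ‖W (A ω) k x t‖ ≤ lb δ ε k j + 1 := by
  have hb := bc (μ := μ)
    (B := fun k => {ω | ∃ j ∈ range (k + 1), ∃ (x : ℕ) (t : ℝ), x < 2 ^ (k + 1) ∧ |t| ≤ Real.exp (2 ^ j) ∧
      lb δ ε k j + 1 ≤ ‖W (A ω) k x t‖})
    (g := fun k => ((k : ℝ) + 1) * (2 * (2 : ℝ) ^ (-(ε * k)))) (summ_aux hε) (by
      filter_upwards [hI ε hε] with k hk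
      have e1 : {ω | ∃ j ∈ range (k + 1), ∃ (x : ℕ) (t : ℝ), x < 2 ^ (k + 1) ∧ |t| ≤ Real.exp (2 ^ j) ∧
          lb δ ε k j + 1 ≤ ‖W (A ω) k x t‖} = ⋃ j ∈ range (k + 1),
          {ω | ∃ (x : ℕ) (t : ℝ), x < 2 ^ (k + 1) ∧ |t| ≤ Real.exp (2 ^ j) ∧
          lb δ ε k j + 1 ≤ ‖W (A ω) k x t‖} := by
        ext ω
        simp
      rw [e1]
      refine (measureReal_biUnion_finset_le _ _).trans ?_
      have e2 : ∀ j ∈ range (k + 1), μ.real {ω | ∃ (x : ℕ) (t : ℝ), x < 2 ^ (k + 1) ∧ |t| ≤ Real.exp (2 ^ j) ∧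
          lb δ ε k j + 1 ≤ ‖W (A ω) k x t‖} ≤ 2 * (2 : ℝ) ^ (-(ε * k)) := by
        intro j _
        refine (event_le hE hH hS hA δ ε k j).trans ?_
        have h1 : (1 : ℝ) ≤ (2 : ℝ) ^ ((δ + ε) * k) := by
          apply Real.one_le_rpow (by norm_num)
          positivity
        have h2 : (0 : ℝ) < (2 : ℝ) ^ ((δ + 2 * ε) * k) := by positivity
        have h3 : (2 : ℝ) ^ (-(ε * k)) * (2 : ℝ) ^ ((δ + 2 * ε) * k) = (2 : ℝ) ^ ((δ + ε) * k) := by
          rw [← Real.rpow_add (by norm_num)]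
          congr 1; ring
        have h4 : (0 : ℝ) < (2 : ℝ) ^ (-(ε * k)) := by positivity
        rw [div_le_iff₀ (by positivity)]
        have h5 : 2 * (2 : ℝ) ^ (-(ε * k)) * (2 : ℝ) ^ ((δ + 2 * ε) * k) ≤
            2 * (2 : ℝ) ^ (-(ε * k)) * ((2 : ℝ) ^ ((δ + 2 * ε) * k) + 2 ^ j + 5 * k + 10) := by
          refine mul_le_mul_of_nonneg_left ?_ (by positivity)
          have : (0 : ℝ) ≤ 2 ^ j + 5 * k + 10 := by positivity
          linarith
        have h6 : 2 * (2 : ℝ) ^ (-(ε * k)) * (2 : ℝ) ^ ((δ + 2 * ε) * k) = 2 * (2 : ℝ) ^ ((δ + ε) * k) := by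
          rw [mul_assoc, h3]
        rw [h6] at h5
        linarith
      refine (Finset.sum_le_sum e2).trans (le_of_eq ?_)
      rw [Finset.sum_const, card_range, nsmul_eq_mul]
      push_cast
      ring)
  filter_upwards [hb] with ω hω
  filter_upwards [hω] with k hk j hj x hx t ht
  by_contra hcon
  push Not at hcon
  exact hk ⟨j, mem_range.2 (by omega), x, t, hx, ht, hcon.le⟩

theorem det_bound {S : Set ℕ} {δ ε θ : ℝ} (hδ : 0 ≤ δ) (hε : 0 < ε) (hθ : (1 + δ) / 2 + ε ≤ θ)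
    (h : ∀ᶠ k : ℕ in atTop, ∀ j ≤ k, ∀ x : ℕ, x < 2 ^ (k + 1) → ∀ t : ℝ, |t| ≤ Real.exp (2 ^ j) →
      ‖W S k x t‖ ≤ lb δ ε k j + 1) :
    ∃ C : ℝ, ∀ (k x : ℕ) (t : ℝ),
      ‖W S k x t‖ ≤ C * ((2 : ℝ) ^ (θ * k) + (2 : ℝ) ^ ((k : ℝ) / 2) * √(Real.log (|t| + 3))) := by
  obtain ⟨K, hK⟩ := eventually_atTop.1 h
  set η : ℝ := 2 * θ - 1 with hη
  have hη0 : 0 < η := by rw [hη]; linarith
  have hl2 : 0 < Real.log 2 := Real.log_pos (by norm_num)
  set C' : ℝ := 10 + 5 / (η * Real.log 2) with hC'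
  have hC'0 : 10 ≤ C' := by
    rw [hC']
    have : 0 < 5 / (η * Real.log 2) := by positivity
    linarith
  refine ⟨17 + 8 * C' + 2 ^ K, fun k x t => ?_⟩
  set X : ℝ := (2 : ℝ) ^ (θ * k) with hX
  set ℓ : ℝ := Real.log (|t| + 3) with hℓ
  set Y : ℝ := (2 : ℝ) ^ ((k : ℝ) / 2) * √ℓ with hY
  have hk0 : (0 : ℝ) ≤ k := Nat.cast_nonneg k
  have hX1 : 1 ≤ X := by
    rw [hX]; apply Real.one_le_rpow (by norm_num)
    have : 0 < θ := by linarith
    positivity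
  have ht3 : (3 : ℝ) ≤ |t| + 3 := by linarith [abs_nonneg t]
  have hℓ1 : 1 ≤ ℓ := by
    rw [hℓ, Real.le_log_iff_exp_le (by linarith)]
    linarith [Real.exp_one_lt_d9]
  have hY0 : 0 ≤ Y := by rw [hY]; positivity
  have hXs : X ^ 2 = (2 : ℝ) ^ (2 * θ * k) := by
    rw [hX, ← Real.rpow_natCast ((2 : ℝ) ^ (θ * k)) 2, ← Real.rpow_mul (by norm_num)]
    congr 1; push_cast; ring
  have h2k : (2 : ℝ) ^ k = (2 : ℝ) ^ (k : ℝ) := (Real.rpow_natCast 2 k).symm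
  have hYs : Y ^ 2 = 2 ^ k * ℓ := by
    rw [hY, mul_pow, Real.sq_sqrt (by linarith), h2k, ← Real.rpow_natCast ((2 : ℝ) ^ ((k : ℝ) / 2)) 2,
      ← Real.rpow_mul (by norm_num)]
    congr 2; push_cast; ring
  have hKp : (0 : ℝ) < 2 ^ K := by positivity
  have hXY : 0 ≤ X + Y := by linarith
  by_cases hk : K ≤ k
  · -- large blocks
    by_cases ht : |t| ≤ Real.exp (2 ^ k)
    · classical
      have hex : ∃ j : ℕ, |t| ≤ Real.exp (2 ^ j) := ⟨k, ht⟩
      set j : ℕ := Nat.find hex with hj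
      have hj1 : |t| ≤ Real.exp (2 ^ j) := Nat.find_spec hex
      have hjk : j ≤ k := Nat.find_min' hex ht
      have hj2 : (2 : ℝ) ^ j ≤ 2 * ℓ := by
        rcases Nat.eq_zero_or_pos j with h0 | h0
        · rw [h0, pow_zero]; linarith
        · have h1 : ¬ |t| ≤ Real.exp (2 ^ (j - 1)) := Nat.find_min hex (by omega)
          push Not at h1
          have h2 : (2 : ℝ) ^ (j - 1) ≤ ℓ := by
            rw [hℓ, Real.le_log_iff_exp_le (by linarith)]
            linarith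
          have h3 : (2 : ℝ) ^ j = 2 ^ (j - 1) * 2 := by
            rw [← pow_succ]; congr 1; omega
          rw [h3]; linarith
      have hW : ‖W S k x t‖ ≤ lb δ ε k j + 1 := by
        by_cases hx : x < 2 ^ (k + 1)
        · exact hK k hk j hjk x hx t hj1
        · rw [W_big S hx]
          exact hK k hk j hjk _ (by have : 0 < 2 ^ (k + 1) := by positivity
                                    omega) t hj1
      have ha : (2 : ℝ) ^ k * (2 : ℝ) ^ ((δ + 2 * ε) * k) ≤ X ^ 2 := by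
        rw [hXs, h2k, ← Real.rpow_add (by norm_num)]
        apply Real.rpow_le_rpow_of_exponent_le (by norm_num)
        nlinarith
      have hb : (2 : ℝ) ^ k * 2 ^ j ≤ 2 * Y ^ 2 := by
        rw [hYs]
        have : (0 : ℝ) < 2 ^ k := by positivity
        nlinarith
      have hc : (2 : ℝ) ^ k * (5 * k + 10) ≤ C' * X ^ 2 := by
        have h1 : η * k * Real.log 2 + 1 ≤ (2 : ℝ) ^ (η * k) := by
          rw [Real.rpow_def_of_pos (by norm_num)]
          have := Real.add_one_le_exp (Real.log 2 * (η * k))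
          linarith
        have h2 : (5 : ℝ) * k + 10 ≤ C' * (2 : ℝ) ^ (η * k) := by
          have h3 : C' * (η * k * Real.log 2 + 1) ≤ C' * (2 : ℝ) ^ (η * k) :=
            mul_le_mul_of_nonneg_left h1 (by linarith)
          have h4 : 5 / (η * Real.log 2) * (η * k * Real.log 2) = 5 * k := by
            field_simp
          have h5 : 0 ≤ 10 * (η * k * Real.log 2) := by positivity
          have h6 : 0 ≤ 5 / (η * Real.log 2) := by positivity
          have h7 : C' * (η * k * Real.log 2 + 1) = 10 * (η * k * Real.log 2) + 10 +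
              5 / (η * Real.log 2) * (η * k * Real.log 2) + 5 / (η * Real.log 2) := by
            rw [hC']; ring
          linarith
        have h8 : X ^ 2 = 2 ^ k * (2 : ℝ) ^ (η * k) := by
          rw [hXs, h2k, ← Real.rpow_add (by norm_num)]
          congr 1
          rw [hη]; ring
        rw [h8]
        have : (0 : ℝ) < 2 ^ k := by positivity
        nlinarith
      have hl : lb δ ε k j ^ 2 ≤ ((16 + 8 * C') * (X + Y)) ^ 2 := by
        rw [lb_sq]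
        have h1 : 8 * 2 ^ k * ((2 : ℝ) ^ ((δ + 2 * ε) * k) + 2 ^ j + 5 * k + 10) =
            8 * (2 ^ k * (2 : ℝ) ^ ((δ + 2 * ε) * k)) + 8 * (2 ^ k * 2 ^ j) + 8 * (2 ^ k * (5 * k + 10)) := by ring
        rw [h1]
        have h2 : 8 * (2 ^ k * (2 : ℝ) ^ ((δ + 2 * ε) * k)) + 8 * (2 ^ k * 2 ^ j) + 8 * (2 ^ k * (5 * (k : ℝ) + 10)) ≤
            (16 + 8 * C') * (X ^ 2 + Y ^ 2) := by
          have h3 : 0 ≤ Y ^ 2 := sq_nonneg _
          have h4 : 0 ≤ X ^ 2 := sq_nonneg _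
          have h5 : (16 + 8 * C') * (X ^ 2 + Y ^ 2) = 8 * X ^ 2 + 16 * Y ^ 2 + 8 * (C' * X ^ 2) +
            (8 * X ^ 2 + 8 * (C' * Y ^ 2)) := by ring
          have h6 : 0 ≤ C' * Y ^ 2 := mul_nonneg (by linarith) h3
          rw [h5]
          linarith
        refine h2.trans ?_
        have h3 : X ^ 2 + Y ^ 2 ≤ (X + Y) ^ 2 := by
          have h5 : 0 ≤ X * Y := mul_nonneg (by linarith) hY0
          have h6 : (X + Y) ^ 2 = X ^ 2 + Y ^ 2 + 2 * (X * Y) := by ring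
          linarith
        have h4 : (16 + 8 * C') * (X ^ 2 + Y ^ 2) ≤ (16 + 8 * C') * (X + Y) ^ 2 :=
          mul_le_mul_of_nonneg_left h3 (by linarith)
        refine h4.trans ?_
        rw [mul_pow]
        refine mul_le_mul_of_nonneg_right ?_ (sq_nonneg _)
        exact le_self_pow₀ (by linarith) (by norm_num)
      have hp0 : 0 ≤ (16 + 8 * C') * (X + Y) := mul_nonneg (by linarith) hXY
      have hl2' : lb δ ε k j ≤ (16 + 8 * C') * (X + Y) := (sq_le_sq₀ (lb_pos δ ε k j).le hp0).1 hl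
      have hf : (17 + 8 * C' + 2 ^ K) * (X + Y) = (16 + 8 * C') * (X + Y) + (X + Y) + 2 ^ K * (X + Y) := by ring
      rw [hf]
      have : 0 ≤ 2 ^ K * (X + Y) := mul_nonneg hKp.le hXY
      linarith
    · push Not at ht
      have h1 : (2 : ℝ) ^ k ≤ ℓ := by
        rw [hℓ, Real.le_log_iff_exp_le (by linarith)]
        linarith
      have h2 : (2 : ℝ) ^ k ≤ Y := by
        have h3 : ((2 : ℝ) ^ k) ^ 2 ≤ Y ^ 2 := by
          rw [hYs]
          have : (0 : ℝ) < 2 ^ k := by positivity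
          nlinarith
        exact (sq_le_sq₀ (by positivity) hY0).1 h3
      have h4 := W_norm_le S k x t
      have h5 : 1 * (X + Y) ≤ (17 + 8 * C' + 2 ^ K) * (X + Y) :=
        mul_le_mul_of_nonneg_right (by linarith) hXY
      linarith
  · have h1 := W_norm_le S k x t
    have h2 : (2 : ℝ) ^ k ≤ 2 ^ K := pow_le_pow_right₀ (by norm_num) (by omega)
    have h3 : (2 : ℝ) ^ K * 1 ≤ 2 ^ K * (X + Y) := mul_le_mul_of_nonneg_left (by linarith) hKp.le
    have h4 : (17 + 8 * C' + 2 ^ K) * (X + Y) = (17 + 8 * C') * (X + Y) + 2 ^ K * (X + Y) := by ring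
    have h5 : 0 ≤ (17 + 8 * C') * (X + Y) := mul_nonneg (by linarith) hXY
    linarith

theorem t_ASF : J_ASF := by
  intro hE hH hS Ω _ μ _ A hA δ hδ _ hI
  have h1 : ∀ m : ℕ, ∀ᵐ ω ∂μ, ∀ᶠ k : ℕ in atTop, ∀ j ≤ k, ∀ x : ℕ, x < 2 ^ (k + 1) →
      ∀ t : ℝ, |t| ≤ Real.exp (2 ^ j) → ‖W (A ω) k x t‖ ≤ lb δ (1 / ((m : ℝ) + 1)) k j + 1 := fun m =>
    ae_block hE hH hS hA hI (by positivity) hδ
  rw [← ae_all_iff] at h1
  filter_upwards [h1] with ω hω
  intro θ hθ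
  obtain ⟨m, hm⟩ := exists_nat_one_div_lt (show 0 < θ - (1 + δ) / 2 by linarith)
  exact det_bound hδ (by positivity) (by linarith) (hω m)

end Pool.Agent.Q208.FZ
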