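import Pool.Agent.Q120.FZ.Stm

/-!
# Project FZ (helper120), job HOEF
-/

set_option autoImplicit false

namespace Pool.Agent.Q208.FZ

open Finset MeasureTheory Filter Pool.Agent.Q120.ET Pool.Agent.Q120.GM Pool.Agent.Q120.TT Pool.Agent.Q120.FZ
open scoped Topology

open Classical in
/-- the probability of an event -/
noncomputable def prb (B : Finset ℕ) (Q : Finset ℕ → Prop) : ℝ :=
  ∑ T ∈ B.powerset with Q T, prodOn half B T

theorem prodOn_half (B T : Finset ℕ) : 0 ≤ prodOn half B T := by
  unfold prodOn half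
  positivity

open Classical in
theorem prb_le_of {κ : Type} {B : Finset ℕ} {Q : Finset ℕ → Prop} {s : Finset κ}
    {R : κ → Finset ℕ → Prop} (h : ∀ T ⊆ B, Q T → ∃ i ∈ s, R i T) :
    prb B Q ≤ ∑ i ∈ s, prb B (R i) := by
  unfold prb
  simp only [Finset.sum_filter]
  rw [Finset.sum_comm]
  refine Finset.sum_le_sum fun T hT => ?_
  have hnn : ∀ i ∈ s, 0 ≤ (if R i T then prodOn half B T else 0) := by
    intro i _
    split_ifs
    · exact prodOn_half B T
    · exact le_rfl
  split_ifs with hQ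
  · obtain ⟨i, hi, hR⟩ := h T (Finset.mem_powerset.1 hT) hQ
    have := Finset.single_le_sum hnn hi
    rwa [if_pos hR] at this
  · exact Finset.sum_nonneg hnn

/-- the exponential moment -/
theorem exp_moment (B : Finset ℕ) (a : ℕ → ℝ) (l : ℝ) :
    ∑ T ∈ B.powerset, prodOn half B T *
      Real.exp (l * ∑ n ∈ B, sg ((T : Finset ℕ) : Set ℕ) n * a n) = ∏ n ∈ B, Real.cosh (l * a n) := by
  classical
  have h1 : ∀ n ∈ B, Real.cosh (l * a n) = 1 / 2 * Real.exp (l * a n) +
      (1 - 1 / 2) * Real.exp (-(l * a n)) := by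
    intro n _
    rw [Real.cosh_eq]
    ring
  rw [Finset.prod_congr rfl h1, Finset.prod_add]
  refine Finset.sum_congr rfl fun T hT => ?_
  have hT' := Finset.mem_powerset.1 hT
  unfold prodOn half
  rw [Finset.prod_mul_distrib, Finset.prod_mul_distrib, ← Real.exp_sum, ← Real.exp_sum]
  have h2 : l * ∑ n ∈ B, sg ((T : Finset ℕ) : Set ℕ) n * a n =
      ∑ n ∈ T, l * a n + ∑ n ∈ B \ T, -(l * a n) := by
    rw [← Finset.sum_sdiff hT', mul_add, Finset.mul_sum, Finset.mul_sum, add_comm]
    congr 1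
    · refine Finset.sum_congr rfl fun n hn => ?_
      unfold sg
      rw [if_pos (Finset.mem_coe.2 hn), one_mul]
    · refine Finset.sum_congr rfl fun n hn => ?_
      unfold sg
      rw [if_neg (fun h => (Finset.mem_sdiff.1 hn).2 (Finset.mem_coe.1 h))]
      ring
  rw [h2, Real.exp_add]
  ring

theorem real_hoef {B : Finset ℕ} {a : ℕ → ℝ} {V u : ℝ} (ha : ∑ n ∈ B, a n ^ 2 ≤ V) (hV : 0 < V)
    (hu : 0 < u) : prb B (fun T => u ≤ ∑ n ∈ B, sg ((T : Finset ℕ) : Set ℕ) n * a n) ≤
      Real.exp (-(u ^ 2 / (2 * V))) := by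
  classical
  obtain ⟨l, hl⟩ : ∃ l : ℝ, l = u / V := ⟨_, rfl⟩
  have hl0 : 0 < l := by rw [hl]; positivity
  unfold prb
  rw [Finset.sum_filter]
  calc ∑ T ∈ B.powerset, (if u ≤ ∑ n ∈ B, sg ((T : Finset ℕ) : Set ℕ) n * a n then
        prodOn half B T else 0)
      ≤ ∑ T ∈ B.powerset, Real.exp (-(l * u)) * (prodOn half B T *
        Real.exp (l * ∑ n ∈ B, sg ((T : Finset ℕ) : Set ℕ) n * a n)) := by
        refine Finset.sum_le_sum fun T _ => ?_
        have h0 := prodOn_half B T
        split_ifs with h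
        · have h1 : 1 ≤ Real.exp (-(l * u)) *
              Real.exp (l * ∑ n ∈ B, sg ((T : Finset ℕ) : Set ℕ) n * a n) := by
            rw [← Real.exp_add, Real.one_le_exp_iff]
            have := mul_le_mul_of_nonneg_left h hl0.le
            linarith
          calc prodOn half B T = prodOn half B T * 1 := (mul_one _).symm
            _ ≤ prodOn half B T * (Real.exp (-(l * u)) *
              Real.exp (l * ∑ n ∈ B, sg ((T : Finset ℕ) : Set ℕ) n * a n)) := by gcongr
            _ = _ := by ring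
        · positivity
    _ = Real.exp (-(l * u)) * ∏ n ∈ B, Real.cosh (l * a n) := by
        rw [← Finset.mul_sum, exp_moment]
    _ ≤ Real.exp (-(l * u)) * Real.exp (l ^ 2 * V / 2) := by
        gcongr
        calc ∏ n ∈ B, Real.cosh (l * a n) ≤ ∏ n ∈ B, Real.exp ((l * a n) ^ 2 / 2) :=
              Finset.prod_le_prod (fun n _ => (Real.cosh_pos _).le)
                fun n _ => Real.cosh_le_exp_half_sq _
          _ = Real.exp (l ^ 2 * (∑ n ∈ B, a n ^ 2) / 2) := by
              rw [← Real.exp_sum, Finset.mul_sum, Finset.sum_div]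
              congr 1
              refine Finset.sum_congr rfl fun n _ => ?_
              ring
          _ ≤ Real.exp (l ^ 2 * V / 2) := by
              refine Real.exp_le_exp.2 ?_
              gcongr
    _ = Real.exp (-(u ^ 2 / (2 * V))) := by
        rw [← Real.exp_add]
        congr 1
        rw [hl]
        field_simp
        ring

theorem t_HOEF : J_HOEF := by
  intro B c V t hc hV ht
  obtain ⟨u, hu⟩ : ∃ u : ℝ, u = t / √2 := ⟨_, rfl⟩
  have hs2 : (0 : ℝ) < √2 := Real.sqrt_pos.2 (by norm_num)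
  have hu0 : 0 < u := by rw [hu]; positivity
  have hu2 : u ^ 2 = t ^ 2 / 2 := by
    rw [hu, div_pow, Real.sq_sqrt (by norm_num)]
  have hre : ∑ n ∈ B, (c n).re ^ 2 ≤ V := by
    refine (Finset.sum_le_sum fun n _ => ?_).trans hc
    rw [Complex.sq_norm, Complex.normSq_apply]
    nlinarith [sq_nonneg (c n).im]
  have him : ∑ n ∈ B, (c n).im ^ 2 ≤ V := by
    refine (Finset.sum_le_sum fun n _ => ?_).trans hc
    rw [Complex.sq_norm, Complex.normSq_apply]
    nlinarith [sq_nonneg (c n).re]
  -- the four events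
  obtain ⟨a, ha⟩ : ∃ a : Fin 4 → ℕ → ℝ, a = ![fun n => (c n).re, fun n => -(c n).re,
    fun n => (c n).im, fun n => -(c n).im] := ⟨_, rfl⟩
  have hav : ∀ i : Fin 4, ∑ n ∈ B, a i n ^ 2 ≤ V := by
    intro i
    rw [ha]
    fin_cases i
    · exact hre
    · simpa using hre
    · exact him
    · simpa using him
  have h1 := prb_le_of (B := B)
    (Q := fun T => t ≤ ‖∑ n ∈ B, (sg ((T : Finset ℕ) : Set ℕ) n : ℂ) * c n‖)
    (s := (Finset.univ : Finset (Fin 4)))
    (R := fun i T => u ≤ ∑ n ∈ B, sg ((T : Finset ℕ) : Set ℕ) n * a i n) (by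
      intro T _ hT
      obtain ⟨z, hz⟩ : ∃ z : ℂ, z = ∑ n ∈ B, (sg ((T : Finset ℕ) : Set ℕ) n : ℂ) * c n := ⟨_, rfl⟩
      have hzre : z.re = ∑ n ∈ B, sg ((T : Finset ℕ) : Set ℕ) n * (c n).re := by
        rw [hz, Complex.re_sum]
        exact Finset.sum_congr rfl fun n _ => Complex.re_ofReal_mul _ _
      have hzim : z.im = ∑ n ∈ B, sg ((T : Finset ℕ) : Set ℕ) n * (c n).im := by
        rw [hz, Complex.im_sum]
        exact Finset.sum_congr rfl fun n _ => Complex.im_ofReal_mul _ _
      rw [← hz] at hT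
      have hsq : t ^ 2 ≤ z.re ^ 2 + z.im ^ 2 := by
        have h2 : t ^ 2 ≤ ‖z‖ ^ 2 := pow_le_pow_left₀ ht.le hT 2
        rw [Complex.sq_norm, Complex.normSq_apply] at h2
        linarith
      by_contra hcon
      push Not at hcon
      have q0 := hcon 0 (Finset.mem_univ _)
      have q1 := hcon 1 (Finset.mem_univ _)
      have q2 := hcon 2 (Finset.mem_univ _)
      have q3 := hcon 3 (Finset.mem_univ _)
      have r0 : z.re < u := by rw [hzre]; rw [ha] at q0; exact q0
      have r1 : -z.re < u := by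
        rw [hzre, ← Finset.sum_neg_distrib]
        rw [ha] at q1
        simpa using q1
      have r2 : z.im < u := by rw [hzim]; rw [ha] at q2; exact q2
      have r3 : -z.im < u := by
        rw [hzim, ← Finset.sum_neg_distrib]
        rw [ha] at q3
        simpa using q3
      have s1 : z.re ^ 2 < u ^ 2 := sq_lt_sq' (by linarith) r0
      have s2 : z.im ^ 2 < u ^ 2 := sq_lt_sq' (by linarith) r2
      linarith)
  refine h1.trans ?_
  refine (Finset.sum_le_sum fun i _ => real_hoef (hav i) hV hu0).trans (le_of_eq ?_)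
  rw [Finset.sum_const, Finset.card_univ, Fintype.card_fin, nsmul_eq_mul, hu2]
  push_cast
  congr 3
  field_simp
  ring

end Pool.Agent.Q208.FZ
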