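import Pool.Agent.Q120.FZ.Stm
import Pool.Agent.Q111.GE.LAW

/-!
# Project FZ (helper120), job KLF
-/

set_option autoImplicit false

namespace Pool.Agent.Q208.FZ

open Finset MeasureTheory Filter Pool.Agent.Q120.ET Pool.Agent.Q120.GM Pool.Agent.Q120.TT Pool.Agent.Q120.FZ Pool.Agent.Q111.GE
open scoped Topology

theorem half_pos (n : ℕ) : 0 < half n := by unfold half; norm_num

theorem prodOn_half_pos (B T : Finset ℕ) : 0 < prodOn half B T := by
  unfold prodOn half
  refine mul_pos (Finset.prod_pos fun _ _ => by norm_num) (Finset.prod_pos fun _ _ => by norm_num)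

theorem t_KLF : J_KLF := by
  classical
  intro Ω _ μ _ A d hd hA B
  set p : ℕ → ℝ := fun n => (1 + d n) / 2 with hp
  have hp0 : ∀ n, 0 ≤ p n := fun n => by
    have := (abs_le.1 (hd n)).1
    simp only [hp]; linarith
  have hp1 : ∀ n, p n ≤ 1 := fun n => by
    have := (abs_le.1 (hd n)).2
    simp only [hp]; linarith
  set L : Finset ℕ → ℝ := fun T => (∏ n ∈ T, p n) * ∏ n ∈ B \ T, (1 - p n) with hL
  set C : Finset ℕ → ℝ := fun T => prodOn half B T with hC
  have hLaw : ∀ T ∈ B.powerset, lawOn μ A B T = L T := fun T hT =>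
    law_model hA B T (mem_powerset.1 hT)
  have hC0 : ∀ T ∈ B.powerset, 0 < C T := fun T hT => prodOn_half_pos B T
  have hL0 : ∀ T, 0 ≤ L T := fun T => mul_nonneg (Finset.prod_nonneg fun n _ => hp0 n)
    (Finset.prod_nonneg fun n _ => by linarith [hp1 n])
  have hLs : ∑ T ∈ B.powerset, L T = 1 := by
    simp only [hL]
    rw [← Finset.prod_add]
    apply Finset.prod_eq_one
    intro n _
    ring
  set f : ℕ → ℝ := fun n => p n ^ 2 / half n + (1 - p n) ^ 2 / (1 - half n) with hf
  have hfe : ∀ n, f n = 1 + d n ^ 2 := by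
    intro n
    simp only [hf, hp, half]
    ring
  have hf1 : ∀ n ∈ B, 1 ≤ f n := by
    intro n hn
    rw [hfe n]
    nlinarith [sq_nonneg (d n)]
  set c : ℝ := ∏ n ∈ B, f n with hc
  have hc0 : 0 < c := Finset.prod_pos fun n hn => by linarith [hf1 n hn]
  have hcs : ∑ T ∈ B.powerset, L T ^ 2 / C T = c := by
    rw [hc]
    simp only [hf]
    rw [Finset.prod_add]
    refine Finset.sum_congr rfl fun T hT => ?_
    simp only [hL, hC, prodOn]
    rw [mul_pow, ← Finset.prod_pow, ← Finset.prod_pow, mul_div_mul_comm,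
      ← Finset.prod_div_distrib, ← Finset.prod_div_distrib]
  have hterm : ∀ T ∈ B.powerset, lawOn μ A B T * Real.log (lawOn μ A B T / prodOn half B T) ≤
      L T ^ 2 / C T / c - L T + L T * Real.log c := by
    intro T hT
    rw [hLaw T hT]
    have h1 := hC0 T hT
    rcases (hL0 T).eq_or_lt with h2 | h2
    · rw [← h2]; simp
    · have h3 : 0 < L T / C T := by positivity
      have h4 : Real.log (L T / C T) = Real.log (L T / C T / c) + Real.log c := by
        rw [Real.log_div h3.ne' hc0.ne']; ring
      have h5 : Real.log (L T / C T / c) ≤ L T / C T / c - 1 :=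
        Real.log_le_sub_one_of_pos (by positivity)
      change L T * Real.log (L T / C T) ≤ _
      rw [h4]
      have h6 := mul_le_mul_of_nonneg_left h5 h2.le
      have h7 : L T * (L T / C T / c - 1) = L T ^ 2 / C T / c - L T := by ring
      linarith
  have h1 : relEnt half μ A B ≤ Real.log c := by
    unfold relEnt entOf
    refine (Finset.sum_le_sum hterm).trans (le_of_eq ?_)
    rw [Finset.sum_add_distrib, Finset.sum_sub_distrib, ← Finset.sum_div, hcs, hLs,
      ← Finset.sum_mul, hLs, div_self hc0.ne']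
    ring
  refine h1.trans ?_
  rw [hc, Real.log_prod fun n hn => by linarith [hf1 n hn]]
  refine Finset.sum_le_sum fun n hn => ?_
  rw [hfe n]
  have := Real.log_le_sub_one_of_pos (show 0 < 1 + d n ^ 2 by nlinarith [sq_nonneg (d n)])
  linarith

end Pool.Agent.Q208.FZ
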