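import Pool.Agent.Q120.FZ.Stm

/-!
# Project FZ (helper120), job SHF
-/

set_option autoImplicit false

namespace Pool.Agent.Q208.FZ

open Finset MeasureTheory Filter Pool.Agent.Q120.ET Pool.Agent.Q120.GM Pool.Agent.Q120.TT Pool.Agent.Q120.FZ Pool.Agent.Q120.RZ
open scoped Topology

theorem pbF_card (k x : ℕ) : (((pb k).filter (fun p => p ≤ x)).card : ℝ) ≤ 2 ^ k := by
  have h1 : ((pb k).filter (fun p => p ≤ x)).card ≤ 2 ^ k := by
    refine (card_filter_le _ _).trans ?_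
    unfold pb block
    refine (card_filter_le _ _).trans ?_
    rw [Nat.card_Ico, pow_succ]
    omega
  exact_mod_cast h1

theorem sum_sg_eq (S : Set ℕ) (β : ℝ) (I : Finset ℕ) :
    ∑ p ∈ I, (sg S p - dd β p) = 2 * ((num' S I : ℝ) - ∑ n ∈ I, (1 + dd β n) / 2) := by
  classical
  have h1 : (num' S I : ℝ) = ∑ n ∈ I, (if n ∈ S then (1 : ℝ) else 0) := by
    unfold num'
    rw [Finset.sum_ite, Finset.sum_const_zero, add_zero, Finset.sum_const, nsmul_eq_mul, mul_one]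
  rw [h1, ← Finset.sum_sub_distrib, Finset.mul_sum]
  refine Finset.sum_congr rfl fun n _ => ?_
  unfold sg
  split_ifs <;> ring

theorem tail_term (j k : ℕ) :
    Real.exp (-(((2 : ℝ) ^ ((1 / 2 + 1 / ((j : ℝ) + 2)) * k) / 2) ^ 2 /
      (4 * ((2 : ℝ) ^ k + (2 : ℝ) ^ ((1 / 2 + 1 / ((j : ℝ) + 2)) * k) / 2)))) ≤
      ((j + 2).factorial : ℝ) * 32 ^ (j + 2) * (1 / 4) ^ k := by
  set θ : ℝ := 1 / 2 + 1 / ((j : ℝ) + 2) with hθ
  have hj : (0 : ℝ) < (j : ℝ) + 2 := by positivity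
  have hθ1 : θ ≤ 1 := by
    have : 1 / ((j : ℝ) + 2) ≤ 1 / 2 := by
      apply one_div_le_one_div_of_le (by norm_num); linarith [(Nat.cast_nonneg j : (0 : ℝ) ≤ j)]
    rw [hθ]; linarith
  set y : ℝ := (2 : ℝ) ^ (2 / ((j : ℝ) + 2) * k) / 32 with hy
  have hy0 : 0 < y := by rw [hy]; positivity
  have h2k : (2 : ℝ) ^ (θ * k) ≤ 2 ^ k := by
    rw [← Real.rpow_natCast 2 k]
    apply Real.rpow_le_rpow_of_exponent_le (by norm_num)
    have : (0 : ℝ) ≤ k := Nat.cast_nonneg k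
    nlinarith
  have h1 : y ≤ ((2 : ℝ) ^ (θ * k) / 2) ^ 2 / (4 * ((2 : ℝ) ^ k + (2 : ℝ) ^ (θ * k) / 2)) := by
    have hp : (0 : ℝ) < 2 ^ k := by positivity
    have hq : (0 : ℝ) < (2 : ℝ) ^ (θ * k) := by positivity
    rw [le_div_iff₀ (by positivity)]
    have h3 : (2 : ℝ) ^ (2 / ((j : ℝ) + 2) * k) * 2 ^ k = ((2 : ℝ) ^ (θ * k)) ^ 2 := by
      rw [← Real.rpow_natCast 2 k, ← Real.rpow_add (by norm_num), ← Real.rpow_natCast ((2 : ℝ) ^ (θ * k)) 2,
        ← Real.rpow_mul (by norm_num)]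
      congr 1
      rw [hθ]; push_cast; ring
    have h4 : y * (4 * ((2 : ℝ) ^ k + (2 : ℝ) ^ (θ * k) / 2)) ≤ y * (4 * (2 * 2 ^ k)) := by
      refine mul_le_mul_of_nonneg_left ?_ hy0.le
      linarith
    have h5 : y * (4 * (2 * 2 ^ k)) = ((2 : ℝ) ^ (2 / ((j : ℝ) + 2) * k) * 2 ^ k) / 4 := by
      rw [hy]; ring
    rw [h5, h3] at h4
    refine h4.trans (le_of_eq ?_)
    ring
  refine (Real.exp_le_exp.2 (neg_le_neg h1)).trans ?_
  have h2 := Real.pow_div_factorial_le_exp y hy0.le (j + 2)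
  have h3 : y ^ (j + 2) = 4 ^ k / 32 ^ (j + 2) := by
    rw [hy, div_pow, ← Real.rpow_natCast _ (j + 2), ← Real.rpow_mul (by norm_num)]
    congr 1
    have : 2 / ((j : ℝ) + 2) * k * ((j + 2 : ℕ) : ℝ) = ((2 * k : ℕ) : ℝ) := by
      push_cast; field_simp
    rw [this, Real.rpow_natCast, pow_mul]
    norm_num
  have hf : (0 : ℝ) < ((j + 2).factorial : ℝ) := by exact_mod_cast Nat.factorial_pos _
  have h4 : (0 : ℝ) < y ^ (j + 2) / ((j + 2).factorial : ℝ) := by positivity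
  rw [Real.exp_neg]
  refine (inv_anti₀ h4 h2).trans (le_of_eq ?_)
  rw [inv_div, h3, one_div, inv_pow, div_div_eq_mul_div, div_eq_mul_inv]

theorem t_SHF : J_SHF := by
  classical
  intro hT Ω _ μ _ A β hβ hA
  have hp1 : ∀ n, (1 + dd β n) / 2 ≤ 1 := fun n => by
    rw [← hA.prob n]; exact measureReal_le_one
  have hp0 : ∀ n, 0 ≤ (1 + dd β n) / 2 := fun n => by
    rw [← hA.prob n]; exact measureReal_nonneg
  have hkey : ∀ j : ℕ, ∀ᵐ ω ∂μ, ∀ᶠ k : ℕ in atTop, ∀ x : ℕ,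
      |∑ p ∈ (pb k).filter (fun p => p ≤ x), (sg (A ω) p - dd β p)| ≤
        (2 : ℝ) ^ ((1 / 2 + 1 / ((j : ℝ) + 2)) * k) := by
    intro j
    set θ : ℝ := 1 / 2 + 1 / ((j : ℝ) + 2) with hθ
    have hb := bc (μ := μ)
      (B := fun k => {ω | ∃ x ∈ range (2 ^ (k + 1)), (2 : ℝ) ^ (θ * k) / 2 ≤
        |(num' (A ω) ((pb k).filter (fun p => p ≤ x)) : ℝ) - ∑ n ∈ (pb k).filter (fun p => p ≤ x), (1 + dd β n) / 2|})
      (g := fun k => 4 * ((j + 2).factorial : ℝ) * 32 ^ (j + 2) * (1 / 2) ^ k)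
      ((summable_geometric_of_lt_one (by norm_num) (by norm_num)).mul_left _)
      (Eventually.of_forall fun k => by
        have e1 : {ω | ∃ x ∈ range (2 ^ (k + 1)), (2 : ℝ) ^ (θ * k) / 2 ≤
            |(num' (A ω) ((pb k).filter (fun p => p ≤ x)) : ℝ) - ∑ n ∈ (pb k).filter (fun p => p ≤ x), (1 + dd β n) / 2|} =
            ⋃ x ∈ range (2 ^ (k + 1)), {ω | (2 : ℝ) ^ (θ * k) / 2 ≤
            |(num' (A ω) ((pb k).filter (fun p => p ≤ x)) : ℝ) - ∑ n ∈ (pb k).filter (fun p => p ≤ x), (1 + dd β n) / 2|} := by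
          ext ω
          simp
        rw [e1]
        refine (measureReal_biUnion_finset_le _ _).trans ?_
        have e2 : ∀ x ∈ range (2 ^ (k + 1)), μ.real {ω | (2 : ℝ) ^ (θ * k) / 2 ≤
            |(num' (A ω) ((pb k).filter (fun p => p ≤ x)) : ℝ) - ∑ n ∈ (pb k).filter (fun p => p ≤ x), (1 + dd β n) / 2|} ≤
            2 * (((j + 2).factorial : ℝ) * 32 ^ (j + 2) * (1 / 4) ^ k) := by
          intro x _
          refine (hT Ω μ _ A hA ((pb k).filter (fun p => p ≤ x)) (2 ^ k) ((2 : ℝ) ^ (θ * k) / 2) ?_ (by positivity)).trans ?_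
          · calc ∑ n ∈ (pb k).filter (fun p => p ≤ x), (1 + dd β n) / 2
                ≤ ∑ n ∈ (pb k).filter (fun p => p ≤ x), (1 : ℝ) := Finset.sum_le_sum fun n _ => hp1 n
              _ = (((pb k).filter (fun p => p ≤ x)).card : ℝ) := by simp
              _ ≤ 2 ^ k := pbF_card k x
          · exact mul_le_mul_of_nonneg_left (tail_term j k) (by norm_num)
        refine (Finset.sum_le_sum e2).trans (le_of_eq ?_)
        rw [Finset.sum_const, card_range, nsmul_eq_mul]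
        push_cast
        have : (1 / 4 : ℝ) ^ k = (1 / 2) ^ k * (1 / 2) ^ k := by rw [← mul_pow]; norm_num
        rw [this]
        have h2 : (2 : ℝ) ^ k * (1 / 2) ^ k = 1 := by rw [← mul_pow]; norm_num
        linear_combination (4 * ((j + 2).factorial : ℝ) * 32 ^ (j + 2) * (1 / 2) ^ k) * h2)
    filter_upwards [hb] with ω hω
    filter_upwards [hω] with k hk x
    have hk' : ∀ x ∈ range (2 ^ (k + 1)), |∑ p ∈ (pb k).filter (fun p => p ≤ x), (sg (A ω) p - dd β p)| ≤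
        (2 : ℝ) ^ (θ * k) := by
      intro x hx
      by_contra hcon
      apply hk
      refine ⟨x, hx, ?_⟩
      rw [sum_sg_eq, abs_mul, abs_two] at hcon
      push Not at hcon
      linarith
    by_cases hx : x < 2 ^ (k + 1)
    · exact hk' x (mem_range.2 hx)
    · have e : (pb k).filter (fun p => p ≤ x) = (pb k).filter (fun p => p ≤ 2 ^ (k + 1) - 1) := by
        ext p
        simp only [mem_filter]
        constructor
        · rintro ⟨h1, h2⟩
          refine ⟨h1, ?_⟩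
          have := (mem_Ico.1 (mem_filter.1 h1).1).2
          omega
        · rintro ⟨h1, h2⟩
          exact ⟨h1, by omega⟩
      rw [e]
      exact hk' _ (mem_range.2 (by have : 0 < 2 ^ (k + 1) := by positivity
                                   omega))
  rw [← ae_all_iff] at hkey
  filter_upwards [hkey] with ω hω ε hε
  obtain ⟨j, hj⟩ := exists_nat_gt (1 / ε)
  have hj2 : 1 / ((j : ℝ) + 2) ≤ ε := by
    have h0 : 0 < 1 / ε := by positivity
    rw [div_le_iff₀ (by linarith)]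
    have := (div_lt_iff₀ hε).1 hj
    nlinarith
  obtain ⟨K, hK⟩ := eventually_atTop.1 (hω j)
  refine ⟨2 * 2 ^ K + 1, fun k x => ?_⟩
  have hk0 : (0 : ℝ) ≤ k := Nat.cast_nonneg k
  have h1 : (1 : ℝ) ≤ (2 : ℝ) ^ ((1 / 2 + ε) * k) := by
    apply Real.one_le_rpow (by norm_num)
    positivity
  by_cases hk : K ≤ k
  · refine (hK k hk x).trans ?_
    have h2 : (2 : ℝ) ^ ((1 / 2 + 1 / ((j : ℝ) + 2)) * k) ≤ (2 : ℝ) ^ ((1 / 2 + ε) * k) := by
      apply Real.rpow_le_rpow_of_exponent_le (by norm_num)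
      nlinarith
    have h3 : (1 : ℝ) ≤ 2 * 2 ^ K + 1 := by
      have : (0 : ℝ) < 2 ^ K := by positivity
      linarith
    nlinarith
  · have h2 : |∑ p ∈ (pb k).filter (fun p => p ≤ x), (sg (A ω) p - dd β p)| ≤ 2 * 2 ^ k := by
      rw [sum_sg_eq, abs_mul, abs_two]
      have hc := pbF_card k x
      have ha : (num' (A ω) ((pb k).filter (fun p => p ≤ x)) : ℝ) ≤ 2 ^ k := by
        refine le_trans ?_ hc
        unfold num'
        exact_mod_cast card_filter_le _ _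
      have hb : ∑ n ∈ (pb k).filter (fun p => p ≤ x), (1 + dd β n) / 2 ≤ 2 ^ k := by
        calc ∑ n ∈ (pb k).filter (fun p => p ≤ x), (1 + dd β n) / 2
            ≤ ∑ n ∈ (pb k).filter (fun p => p ≤ x), (1 : ℝ) := Finset.sum_le_sum fun n _ => hp1 n
          _ = (((pb k).filter (fun p => p ≤ x)).card : ℝ) := by simp
          _ ≤ 2 ^ k := hc
      have hb0 : 0 ≤ ∑ n ∈ (pb k).filter (fun p => p ≤ x), (1 + dd β n) / 2 :=
        Finset.sum_nonneg fun n _ => hp0 n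
      have ha0 : (0 : ℝ) ≤ (num' (A ω) ((pb k).filter (fun p => p ≤ x)) : ℝ) := Nat.cast_nonneg _
      have : |(num' (A ω) ((pb k).filter (fun p => p ≤ x)) : ℝ) -
          ∑ n ∈ (pb k).filter (fun p => p ≤ x), (1 + dd β n) / 2| ≤ 2 ^ k := by
        rw [abs_le]; constructor <;> linarith
      linarith
    have h3 : (2 : ℝ) ^ k ≤ 2 ^ K := pow_le_pow_right₀ (by norm_num) (by omega)
    refine h2.trans ?_
    have h4 : (0 : ℝ) < 2 ^ K := by positivity
    nlinarith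

end Pool.Agent.Q208.FZ
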