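import Pool.Agent.Q120.FZ.Stm

/-!
# Project FZ (helper120), job SHIFT
-/

set_option autoImplicit false

namespace Pool.Agent.Q208.FZ

open Finset MeasureTheory Filter Pool.Agent.Q120.ET Pool.Agent.Q120.GM Pool.Agent.Q120.TT Pool.Agent.Q120.FZ
open scoped Topology

theorem line_int {g : ℂ → ℂ} {θ a C : ℝ} (h1 : θ < a) (hg : DifferentiableOn ℂ g {s | θ < s.re})
    (hb : ∀ t : ℝ, ‖g (a + t * Complex.I)‖ ≤ C * (|t| + 3) ^ (-(3 : ℝ) / 2)) :
    Integrable (fun t : ℝ => g (a + t * Complex.I)) := by
  have hcont : Continuous fun t : ℝ => g (a + t * Complex.I) := by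
    refine continuousOn_univ.1 ?_
    refine hg.continuousOn.comp (f := fun t : ℝ => (a + t * Complex.I : ℂ)) (by fun_prop) ?_
    intro t _
    show θ < (a + t * Complex.I : ℂ).re
    simpa using h1
  have hint : Integrable fun t : ℝ => (1 + ‖t‖) ^ (-(3 / 2 : ℝ)) :=
    integrable_one_add_norm (by simp; norm_num)
  refine (hint.const_mul |C|).mono' hcont.aestronglyMeasurable (Eventually.of_forall fun t => ?_)
  refine (hb t).trans ?_
  have e1 : (-(3 : ℝ) / 2) = -(3 / 2 : ℝ) := by ring
  rw [e1]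
  have e2 : (|t| + 3) ^ (-(3 / 2 : ℝ)) ≤ (1 + ‖t‖) ^ (-(3 / 2 : ℝ)) := by
    rw [Real.norm_eq_abs]
    refine Real.rpow_le_rpow_of_nonpos (by positivity) (by linarith) (by norm_num)
  have e3 : 0 ≤ (|t| + 3) ^ (-(3 / 2 : ℝ)) := by positivity
  calc C * (|t| + 3) ^ (-(3 / 2 : ℝ)) ≤ |C| * (|t| + 3) ^ (-(3 / 2 : ℝ)) := by
        gcongr
        exact le_abs_self C
    _ ≤ _ := by gcongr

theorem t_SHIFT : J_SHIFT := by
  intro g θ a b C h1 h2 hg hb
  have ia := line_int h1 hg (C := C) fun t => by
    have := hb (a + t * Complex.I) (by simp) (by simpa using h2.le)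
    simpa using this
  have ib := line_int (h1.trans h2) hg (C := C) fun t => by
    have := hb (b + t * Complex.I) (by simpa using h2.le) (by simp)
    simpa using this
  have ta : Tendsto (fun T : ℝ => ∫ t in (-T)..T, g (a + t * Complex.I)) atTop
      (𝓝 (∫ t : ℝ, g (a + t * Complex.I))) :=
    intervalIntegral_tendsto_integral ia tendsto_neg_atTop_atBot tendsto_id
  have tb : Tendsto (fun T : ℝ => ∫ t in (-T)..T, g (b + t * Complex.I)) atTop
      (𝓝 (∫ t : ℝ, g (b + t * Complex.I))) :=
    intervalIntegral_tendsto_integral ib tendsto_neg_atTop_atBot tendsto_id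
  have hrect : ∀ T : ℝ, 0 ≤ T → ‖(∫ t in (-T)..T, g (b + t * Complex.I)) -
      ∫ t in (-T)..T, g (a + t * Complex.I)‖ ≤ 2 * ((b - a) * (|C| * (T + 3) ^ (-(3 : ℝ) / 2))) := by
    intro T hT
    have hr := Complex.integral_boundary_rect_eq_zero_of_differentiableOn g
      ((a : ℂ) + ((-T : ℝ) : ℂ) * Complex.I) ((b : ℂ) + (T : ℂ) * Complex.I) (by
        refine hg.mono ?_
        intro s hs
        rw [Complex.mem_reProdIm] at hs
        have h3 := hs.1
        simp only [Complex.add_re, Complex.ofReal_re, Complex.mul_re, Complex.I_re, mul_zero,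
          Complex.ofReal_im, Complex.I_im, mul_one, sub_self, add_zero] at h3
        rw [Set.uIcc_of_le h2.le] at h3
        show θ < s.re
        linarith [h3.1])
    simp only [Complex.add_re, Complex.ofReal_re, Complex.mul_re, Complex.I_re, mul_zero,
      Complex.ofReal_im, Complex.I_im, mul_one, sub_self, add_zero, Complex.add_im, Complex.mul_im,
      zero_add, smul_eq_mul] at hr
    have hor : ∀ y : ℝ, |y| = T → ‖∫ x in a..b, g (x + y * Complex.I)‖ ≤
        (b - a) * (|C| * (T + 3) ^ (-(3 : ℝ) / 2)) := by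
      intro y hy
      have h3 : ∀ x ∈ Set.uIoc a b, ‖g (x + y * Complex.I)‖ ≤ |C| * (T + 3) ^ (-(3 : ℝ) / 2) := by
        intro x hx
        rw [Set.uIoc_of_le h2.le] at hx
        have h4 := hb (x + y * Complex.I) (by simpa using hx.1.le) (by simpa using hx.2)
        have h5 : ((x : ℂ) + y * Complex.I).im = y := by simp
        rw [h5, hy] at h4
        refine h4.trans (mul_le_mul_of_nonneg_right (le_abs_self C) ?_)
        have : 0 ≤ T + 3 := by linarith
        exact Real.rpow_nonneg this _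
      have h4 := intervalIntegral.norm_integral_le_of_norm_le_const h3
      rw [abs_of_pos (by linarith : 0 < b - a)] at h4
      linarith
    have hI : ∀ z w : ℂ, ‖z - w‖ = ‖Complex.I * z - Complex.I * w‖ := by
      intro z w
      rw [← mul_sub, norm_mul, Complex.norm_I, one_mul]
    rw [hI]
    have e1 : Complex.I * (∫ t in (-T)..T, g (b + t * Complex.I)) -
        Complex.I * ∫ t in (-T)..T, g (a + t * Complex.I) =
        (∫ x in a..b, g (x + T * Complex.I)) - ∫ x in a..b, g (x + ((-T : ℝ) : ℂ) * Complex.I) := by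
      linear_combination hr
    rw [e1]
    refine (norm_sub_le _ _).trans ?_
    have q1 := hor T (abs_of_nonneg hT)
    have q2 := hor (-T) (by rw [abs_neg, abs_of_nonneg hT])
    linarith
  have hz : Tendsto (fun T : ℝ => (∫ t in (-T)..T, g (b + t * Complex.I)) -
      ∫ t in (-T)..T, g (a + t * Complex.I)) atTop (𝓝 0) := by
    have hlim : Tendsto (fun T : ℝ => 2 * ((b - a) * (|C| * (T + 3) ^ (-(3 : ℝ) / 2)))) atTop
        (𝓝 0) := by
      have h3 : Tendsto (fun T : ℝ => (T + 3) ^ (-(3 / 2 : ℝ))) atTop (𝓝 0) :=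
        (tendsto_rpow_neg_atTop (by norm_num : (0:ℝ) < 3 / 2)).comp
          (tendsto_atTop_add_const_right _ 3 tendsto_id)
      have h4 := ((h3.const_mul |C|).const_mul (b - a)).const_mul 2
      simp only [mul_zero] at h4
      have e1 : (-(3 : ℝ) / 2) = -(3 / 2 : ℝ) := by ring
      rw [e1]
      exact h4
    refine squeeze_zero_norm' ?_ hlim
    filter_upwards [eventually_ge_atTop 0] with T hT
    exact hrect T hT
  have h3 := tendsto_nhds_unique (tb.sub ta) hz
  exact (sub_eq_zero.1 h3).symm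

end Pool.Agent.Q208.FZ
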