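import Pool.Agent.Q208.FZ.HOEF

/-!
# Project FZ (helper120), job SUP
-/

set_option autoImplicit false

namespace Pool.Agent.Q208.FZ

open Finset MeasureTheory Filter Pool.Agent.Q120.ET Pool.Agent.Q120.GM Pool.Agent.Q120.TT Pool.Agent.Q120.FZ
open scoped Topology

theorem pb_card (k : ℕ) : ((pb k).card : ℝ) ≤ 2 ^ k := by
  have h1 : (pb k).card ≤ (block k).card := Finset.card_filter_le _ _
  have h2 : (block k).card = 2 ^ k := by
    unfold block
    rw [Nat.card_Ico, pow_succ]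
    omega
  rw [h2] at h1
  exact_mod_cast h1

theorem pb_mem {k p : ℕ} (hp : p ∈ pb k) : 2 ^ k ≤ p ∧ p < 2 ^ (k + 1) ∧ p.Prime := by
  unfold pb block at hp
  rw [Finset.mem_filter, Finset.mem_Ico] at hp
  exact ⟨hp.1.1, hp.1.2, hp.2⟩

theorem pow_eq {p : ℕ} (hp : 0 < p) (t : ℝ) :
    (p : ℂ) ^ (-((t : ℂ) * Complex.I)) = Complex.exp (Complex.I * ((-(t * Real.log p) : ℝ) : ℂ)) := by
  rw [Complex.cpow_def_of_ne_zero (by exact_mod_cast hp.ne'), ← Complex.natCast_log]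
  congr 1
  push_cast
  ring

theorem pow_norm_one {p : ℕ} (hp : 0 < p) (t : ℝ) : ‖(p : ℂ) ^ (-((t : ℂ) * Complex.I))‖ = 1 := by
  rw [pow_eq hp, mul_comm, Complex.norm_exp_ofReal_mul_I]

theorem pow_sub_le {p : ℕ} (hp : 0 < p) (t u : ℝ) :
    ‖(p : ℂ) ^ (-((t : ℂ) * Complex.I)) - (p : ℂ) ^ (-((u : ℂ) * Complex.I))‖ ≤
      |t - u| * Real.log p := by
  rw [pow_eq hp, pow_eq hp]
  have h1 : Complex.exp (Complex.I * ((-(t * Real.log p) : ℝ) : ℂ)) -
      Complex.exp (Complex.I * ((-(u * Real.log p) : ℝ) : ℂ)) =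
      Complex.exp (Complex.I * ((-(u * Real.log p) : ℝ) : ℂ)) *
        (Complex.exp (Complex.I * (((u - t) * Real.log p : ℝ) : ℂ)) - 1) := by
    rw [mul_sub, ← Complex.exp_add, mul_one]
    congr 2
    push_cast
    ring
  rw [h1, norm_mul, mul_comm Complex.I ((-(u * Real.log p) : ℝ) : ℂ),
    Complex.norm_exp_ofReal_mul_I, one_mul]
  refine Real.norm_exp_I_mul_ofReal_sub_one_le.trans ?_
  have h0 : 0 ≤ Real.log p := Real.log_natCast_nonneg p
  rw [Real.norm_eq_abs, abs_mul, abs_of_nonneg h0, abs_sub_comm]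

theorem W_sub_le (S : Set ℕ) (k x : ℕ) (t u : ℝ) :
    ‖W S k x t - W S k x u‖ ≤ 2 ^ k * (|t - u| * (k + 1)) := by
  unfold W
  rw [← Finset.sum_sub_distrib]
  refine (norm_sum_le _ _).trans ?_
  have h1 : ∀ p ∈ (pb k).filter (fun p => p ≤ x), ‖(sg S p : ℂ) * (p : ℂ) ^ (-((t : ℂ) * Complex.I)) -
      (sg S p : ℂ) * (p : ℂ) ^ (-((u : ℂ) * Complex.I))‖ ≤ |t - u| * (k + 1) := by
    intro p hp
    obtain ⟨h2, h3, h4⟩ := pb_mem (Finset.mem_filter.1 hp).1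
    have hs : ‖(sg S p : ℂ)‖ = 1 := by
      unfold sg
      split_ifs <;> simp
    rw [← mul_sub, norm_mul, hs, one_mul]
    refine (pow_sub_le h4.pos t u).trans ?_
    have h5 : Real.log p ≤ k + 1 := by
      have h6 : Real.log p ≤ Real.log ((2 : ℝ) ^ (k + 1)) :=
        Real.log_le_log (by exact_mod_cast h4.pos) (by exact_mod_cast h3.le)
      rw [Real.log_pow] at h6
      have h7 : Real.log 2 ≤ 1 := by
        have := Real.log_two_lt_d9
        linarith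
      have h8 : ((k + 1 : ℕ) : ℝ) * Real.log 2 ≤ ((k + 1 : ℕ) : ℝ) * 1 := by gcongr
      push_cast at h6 h8
      linarith
    gcongr
  refine (Finset.sum_le_card_nsmul _ _ _ h1).trans ?_
  rw [nsmul_eq_mul]
  have h2 : (((pb k).filter (fun p => p ≤ x)).card : ℝ) ≤ 2 ^ k := by
    refine le_trans ?_ (pb_card k)
    exact_mod_cast Finset.card_filter_le _ _
  gcongr

/-- rounding towards zero -/
theorem grid {M : ℝ} (hM : 0 < M) {t : ℝ} {R : ℝ} (ht : |t| ≤ R) : ∃ j : ℤ,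
    j ∈ Finset.Icc (-(⌊M * R⌋₊ : ℤ)) ⌊M * R⌋₊ ∧ |t - j / M| ≤ 1 / M := by
  have hR : 0 ≤ R := (abs_nonneg t).trans ht
  have h1 : ⌊M * |t|⌋₊ ≤ ⌊M * R⌋₊ := Nat.floor_le_floor (by gcongr)
  have h2 : (⌊M * |t|⌋₊ : ℝ) ≤ M * |t| := Nat.floor_le (by positivity)
  have h3 : M * |t| < ⌊M * |t|⌋₊ + 1 := Nat.lt_floor_add_one _
  have h4 : |(|t| - (⌊M * |t|⌋₊ : ℝ) / M)| ≤ 1 / M := by
    have e1 : |t| - (⌊M * |t|⌋₊ : ℝ) / M = (M * |t| - ⌊M * |t|⌋₊) / M := by field_simp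
    rw [e1, abs_div, abs_of_pos hM]
    gcongr
    rw [abs_le]
    constructor <;> linarith
  rcases le_total 0 t with h5 | h5
  · refine ⟨(⌊M * |t|⌋₊ : ℤ), ?_, ?_⟩
    · rw [Finset.mem_Icc]
      constructor <;> omega
    · rw [abs_of_nonneg h5] at h4 ⊢
      push_cast
      exact h4
  · refine ⟨-(⌊M * |t|⌋₊ : ℤ), ?_, ?_⟩
    · rw [Finset.mem_Icc]
      constructor <;> omega
    · rw [abs_of_nonpos h5] at h4 ⊢
      rw [← abs_neg] at h4
      push_cast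
      refine le_trans (le_of_eq ?_) h4
      congr 1
      ring

theorem num_bound (k : ℕ) : (12 : ℝ) * 8 ^ (k + 1) ≤ Real.exp (5 * k + 10) := by
  have h1 : (12 : ℝ) ≤ Real.exp 5 := by
    have := Real.add_one_le_exp (5 / 2 : ℝ)
    have h2 : Real.exp 5 = Real.exp (5 / 2) * Real.exp (5 / 2) := by rw [← Real.exp_add]; norm_num
    rw [h2]
    nlinarith
  have h3 : (8 : ℝ) ≤ Real.exp 5 := by linarith
  calc (12 : ℝ) * 8 ^ (k + 1) ≤ Real.exp 5 * Real.exp 5 ^ (k + 1) := by gcongr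
    _ = Real.exp (5 * k + 10) := by
        rw [← Real.exp_nat_mul, ← Real.exp_add]
        congr 1
        push_cast
        ring

theorem t_SUP : J_SUP := by
  classical
  intro hH k L l hL hl hbig
  obtain ⟨M, hM⟩ : ∃ M : ℝ, M = 4 ^ (k + 1) := ⟨_, rfl⟩
  have hM0 : 0 < M := by rw [hM]; positivity
  obtain ⟨R, hR⟩ : ∃ R : ℝ, R = Real.exp L := ⟨_, rfl⟩
  have hR1 : 1 ≤ R := by rw [hR]; exact Real.one_le_exp hL
  have hM1 : 1 ≤ M := by rw [hM]; exact one_le_pow₀ (by norm_num)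
  -- the union bound
  have h1 := prb_le_of (B := pb k)
    (Q := fun T => ∃ (x : ℕ) (t : ℝ), x < 2 ^ (k + 1) ∧ |t| ≤ Real.exp L ∧
      l + 1 ≤ ‖W ((T : Finset ℕ) : Set ℕ) k x t‖)
    (s := Finset.range (2 ^ (k + 1)) ×ˢ Finset.Icc (-(⌊M * R⌋₊ : ℤ)) ⌊M * R⌋₊)
    (R := fun i T => l ≤ ‖W ((T : Finset ℕ) : Set ℕ) k i.1 (i.2 / M)‖) (by
      rintro T _ ⟨x, t, hx, ht, hW⟩
      rw [← hR] at ht
      obtain ⟨j, hj, hjt⟩ := grid hM0 ht
      refine ⟨(x, j), Finset.mem_product.2 ⟨Finset.mem_range.2 hx, hj⟩, ?_⟩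
      have h2 := W_sub_le ((T : Finset ℕ) : Set ℕ) k x t (j / M)
      have h3 : (2 : ℝ) ^ k * (|t - j / M| * (k + 1)) ≤ 1 := by
        have h4 : (k : ℝ) + 1 ≤ 2 ^ (k + 1) := by
          have : k + 1 < 2 ^ (k + 1) := Nat.lt_two_pow_self
          have h5 : ((k + 1 : ℕ) : ℝ) ≤ ((2 ^ (k + 1) : ℕ) : ℝ) := by exact_mod_cast this.le
          push_cast at h5
          exact h5
        calc (2 : ℝ) ^ k * (|t - j / M| * (k + 1)) ≤ 2 ^ k * (1 / M * 2 ^ (k + 1)) := by gcongr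
          _ = 1 / 2 := by
              have e4 : (4 : ℝ) ^ (k + 1) = 2 ^ (k + 1) * 2 ^ (k + 1) := by
                rw [← mul_pow]
                norm_num
              rw [hM, e4, pow_succ]
              field_simp
          _ ≤ 1 := by norm_num
      have h4 : ‖W ((T : Finset ℕ) : Set ℕ) k x t‖ ≤ ‖W ((T : Finset ℕ) : Set ℕ) k x (j / M)‖ +
          ‖W ((T : Finset ℕ) : Set ℕ) k x t - W ((T : Finset ℕ) : Set ℕ) k x (j / M)‖ := by
        have := norm_add_le (W ((T : Finset ℕ) : Set ℕ) k x (j / M))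
          (W ((T : Finset ℕ) : Set ℕ) k x t - W ((T : Finset ℕ) : Set ℕ) k x (j / M))
        rwa [add_sub_cancel] at this
      show l ≤ ‖W ((T : Finset ℕ) : Set ℕ) k x (j / M)‖
      linarith)
  refine h1.trans ?_
  -- each term
  have h2 : ∀ i ∈ Finset.range (2 ^ (k + 1)) ×ˢ Finset.Icc (-(⌊M * R⌋₊ : ℤ)) ⌊M * R⌋₊,
      prb (pb k) (fun T => l ≤ ‖W ((T : Finset ℕ) : Set ℕ) k i.1 (i.2 / M)‖) ≤
        4 * Real.exp (-(l ^ 2 / (4 * 2 ^ k))) := by
    rintro ⟨x, j⟩ _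
    have h3 := hH (pb k) (fun p => if p ≤ x then (p : ℂ) ^ (-(((j / M : ℝ) : ℂ) * Complex.I)) else 0)
      (2 ^ k) l (by
        refine (Finset.sum_le_card_nsmul _ _ 1 fun p hp => ?_).trans ?_
        · obtain ⟨-, -, h4⟩ := pb_mem hp
          split_ifs
          · rw [pow_norm_one h4.pos]
            norm_num
          · simp
        · rw [nsmul_eq_mul, mul_one]
          exact pb_card k) (by positivity) hl
    unfold prb
    refine le_trans (le_of_eq ?_) h3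
    refine Finset.sum_congr ?_ fun _ _ => rfl
    refine Finset.filter_congr fun T _ => ?_
    have h4 : W ((T : Finset ℕ) : Set ℕ) k x (j / M) = ∑ n ∈ pb k, (sg ((T : Finset ℕ) : Set ℕ) n : ℂ) *
        (if n ≤ x then (n : ℂ) ^ (-(((j / M : ℝ) : ℂ) * Complex.I)) else 0) := by
      unfold W
      rw [Finset.sum_filter]
      refine Finset.sum_congr rfl fun p _ => ?_
      split_ifs <;> simp
    simp only
    rw [h4]
  refine (Finset.sum_le_card_nsmul _ _ _ h2).trans ?_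
  rw [nsmul_eq_mul, Finset.card_product, Finset.card_range, Int.card_Icc]
  have h3 : ((((⌊M * R⌋₊ : ℤ) + 1 - -(⌊M * R⌋₊ : ℤ)).toNat : ℕ) : ℝ) ≤ 3 * (M * R) := by
    have e1 : ((⌊M * R⌋₊ : ℤ) + 1 - -(⌊M * R⌋₊ : ℤ)).toNat = 2 * ⌊M * R⌋₊ + 1 := by omega
    rw [e1]
    push_cast
    have h4 : (⌊M * R⌋₊ : ℝ) ≤ M * R := Nat.floor_le (by positivity)
    have h5 : 1 ≤ M * R := one_le_mul_of_one_le_of_one_le hM1 hR1
    linarith
  have h4 : (8 : ℝ) * 2 ^ k * (L + 5 * k + 10) ≤ l ^ 2 := hbig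
  have h5 : L + (5 * k + 10) ≤ l ^ 2 / (8 * 2 ^ k) := by
    rw [le_div_iff₀ (by positivity)]
    linarith
  calc ((2 ^ (k + 1) * ((⌊M * R⌋₊ : ℤ) + 1 - -(⌊M * R⌋₊ : ℤ)).toNat : ℕ) : ℝ) *
        (4 * Real.exp (-(l ^ 2 / (4 * 2 ^ k))))
      ≤ (2 ^ (k + 1) * (3 * (M * R))) * (4 * Real.exp (-(l ^ 2 / (4 * 2 ^ k)))) := by
        push_cast
        gcongr
    _ = 12 * 8 ^ (k + 1) * (R * Real.exp (-(l ^ 2 / (4 * 2 ^ k)))) := by
        have e4 : (8 : ℝ) ^ (k + 1) = 2 ^ (k + 1) * 4 ^ (k + 1) := by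
          rw [← mul_pow]
          norm_num
        rw [hM, e4]
        ring
    _ ≤ Real.exp (5 * k + 10) * (R * Real.exp (-(l ^ 2 / (4 * 2 ^ k)))) := by
        gcongr
        exact num_bound k
    _ = Real.exp (L + (5 * k + 10) - l ^ 2 / (4 * 2 ^ k)) := by
        rw [hR, ← Real.exp_add, ← Real.exp_add]
        congr 1
        ring
    _ ≤ Real.exp (-(l ^ 2 / (8 * 2 ^ k))) := by
        refine Real.exp_le_exp.2 ?_
        have e5 : l ^ 2 / (4 * 2 ^ k) = 2 * (l ^ 2 / (8 * 2 ^ k)) := by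
          field_simp
          ring
        rw [e5]
        linarith

end Pool.Agent.Q208.FZ
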